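import Mathlib
import Pool.Agent.H32.PrB

set_option autoImplicit false

namespace Pool.Agent.Results.MP_30394b_an.StrongAlg

open Filter Topology Pool.Agent.H32.Pr
open scoped Nat ContDiff

/-- `g : C([0,1], 𝕜)` is smooth on `[0,1]` (one-sided derivatives at the end points) and at every point
`x₀` of `[0,1]` one has `limsup |g^(n)(x₀)/n!|^(1/n) = ∞`, i.e. the Taylor series has radius `0`. -/
def IsPS {𝕜 : Type} [RCLike 𝕜] (g : C(Set.Icc (0 : ℝ) 1, 𝕜)) : Prop :=
  ∃ F : ℝ → 𝕜, (∀ x : Set.Icc (0 : ℝ) 1, F x = g x) ∧ ContDiffOn ℝ ∞ F (Set.Icc 0 1) ∧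
    ∀ x₀ ∈ Set.Icc (0 : ℝ) 1, limsup (fun n : ℕ => ENNReal.ofReal
      ((‖iteratedDerivWithin n F (Set.Icc 0 1) x₀‖ / n !) ^ (1 / n : ℝ))) atTop = ⊤

theorem ps_of_sum {𝕜 : Type} [RCLike 𝕜] {ι : Type} (s : Finset ι) (c : ι → 𝕜) (l : ι → ℝ)
    (hl : Set.InjOn l s) (hl0 : ∀ i ∈ s, l i ≠ 0) {i₀ : ι} (hi : i₀ ∈ s) (hc : c i₀ ≠ 0)
    (g : C(Set.Icc (0 : ℝ) 1, 𝕜))
    (hg : ∀ x : Set.Icc (0 : ℝ) 1, g x = ∑ i ∈ s, Real.exp (l i * ff x) • c i) : IsPS g := by
  have hf := ff_smooth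
  have hs : ContDiff ℝ ∞ fun x => ∑ i ∈ s, Real.exp (l i * ff x) • c i := by fun_prop
  refine ⟨fun x => ∑ i ∈ s, Real.exp (l i * ff x) • c i, fun x => (hg x).symm, hs.contDiffOn, ?_⟩
  intro x hx
  by_contra hne
  obtain ⟨b, hb1, hb2⟩ := ENNReal.lt_iff_exists_nnreal_btwn.mp (lt_top_iff_ne_top.mpr hne)
  have hev := eventually_lt_of_limsup_lt hb1
  obtain ⟨L, hL⟩ := SeparatingDual.exists_ne_zero (R := ℝ) hc
  refine expsum_not_bdd s (fun i => L (c i)) l hl hl0 hi hL x ⟨(‖L‖ + 1) * (b + 1), by positivity, ?_⟩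
  filter_upwards [hev, eventually_ge_atTop 1] with n hn hn1
  rw [iteratedDerivWithin_eq_iteratedDeriv (uniqueDiffOn_Icc one_pos)
    (hs.contDiffAt.of_le (by exact_mod_cast le_top)) hx, ENNReal.ofReal_lt_coe_iff (by positivity)] at hn
  have hn0 : (n : ℝ) ≠ 0 := by positivity
  have h1 := pow_le_pow_left₀ (by positivity) hn.le n
  rw [← Real.rpow_natCast, ← Real.rpow_mul (by positivity), one_div_mul_cancel hn0, Real.rpow_one] at h1
  have h2 := L.norm_iteratedFDeriv_comp_left (x := x) (n := n) hs.contDiffAt (by exact_mod_cast le_top)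
  rw [norm_iteratedFDeriv_eq_norm_iteratedDeriv, norm_iteratedFDeriv_eq_norm_iteratedDeriv] at h2
  have e : (⇑L ∘ fun x => ∑ i ∈ s, Real.exp (l i * ff x) • c i) =
      fun x => ∑ i ∈ s, L (c i) * Real.exp (l i * ff x) := by
    funext y
    simp [mul_comm]
  rw [e, Real.norm_eq_abs] at h2
  rw [abs_div, Nat.abs_cast, mul_pow]
  refine (div_le_div_of_nonneg_right h2 (by positivity)).trans ?_
  rw [mul_div_assoc]
  refine mul_le_mul ?_ (h1.trans (pow_le_pow_left₀ (NNReal.coe_nonneg b) (le_add_of_nonneg_right zero_le_one) n)) (by positivity) (by positivity)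
  have := norm_nonneg L
  exact (by linarith : ‖L‖ ≤ ‖L‖ + 1).trans (le_self_pow₀ (by linarith) (by omega))

theorem ps_ne_zero {𝕜 : Type} [RCLike 𝕜] {g : C(Set.Icc (0 : ℝ) 1, 𝕜)} (h : IsPS g) : g ≠ 0 := by
  rintro rfl
  obtain ⟨F, h1, -, h3⟩ := h
  have h4 := h3 0 (by simp)
  have e : ∀ n, iteratedDerivWithin n F (Set.Icc 0 1) 0 = 0 := by
    intro n
    rw [iteratedDerivWithin_congr (g := fun _ => 0) (fun x hx => h1 ⟨x, hx⟩) (by simp)]
    simp
  have : limsup (fun n : ℕ => ENNReal.ofReal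
      ((‖iteratedDerivWithin n F (Set.Icc 0 1) 0‖ / n !) ^ (1 / n : ℝ))) atTop ≤ 1 := by
    refine limsup_le_of_le (by isBoundedDefault) (Eventually.of_forall fun n => ?_)
    rw [e, norm_zero, zero_div, ENNReal.ofReal_le_one]
    exact Real.zero_rpow_le_one _
  rw [h4] at this
  exact absurd this (by simp)

noncomputable def gen (𝕜 : Type) [RCLike 𝕜] (t : ℝ) : C(Set.Icc (0 : ℝ) 1, 𝕜) :=
  ⟨fun x => ((Real.exp (t * ff x) : ℝ) : 𝕜), by
    have := ff_smooth.continuous
    fun_prop⟩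

theorem poly_ps {𝕜 : Type} [RCLike 𝕜] {σ : Type} (t : σ → ℝ) (ht : LinearIndependent ℚ t)
    (P : MvPolynomial σ 𝕜) (hP : P ≠ 0) (h0 : MvPolynomial.constantCoeff P = 0) :
    IsPS (MvPolynomial.aeval (fun i => gen 𝕜 (t i)) P) := by
  classical
  obtain ⟨m₀, hm₀⟩ := MvPolynomial.ne_zero_iff.mp hP
  let l : (σ →₀ ℕ) → ℝ := fun m => m.sum fun i k => (k : ℝ) * t i
  have hl : Function.Injective l := by
    intro m m' h
    have h1 : ∀ m : σ →₀ ℕ, l m = Finsupp.linearCombination ℚ t (m.mapRange (Nat.cast : ℕ → ℚ) (by simp)) := by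
      intro m
      rw [Finsupp.linearCombination_apply, Finsupp.sum_mapRange_index (by simp)]
      simp only [l, Rat.smul_def, Rat.cast_natCast]
    rw [h1, h1] at h
    exact Finsupp.mapRange_injective _ _ Nat.cast_injective (ht h)
  refine ps_of_sum P.support (fun m => P.coeff m) l hl.injOn ?_ (MvPolynomial.mem_support_iff.mpr hm₀)
    hm₀ _ ?_
  · intro m hm h
    have : m = 0 := hl (by simpa [l] using h)
    rw [this, MvPolynomial.mem_support_iff] at hm
    exact hm h0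
  · intro x
    rw [MvPolynomial.aeval_def, MvPolynomial.eval₂_eq, ContinuousMap.sum_apply]
    refine Finset.sum_congr rfl fun m _ => ?_
    simp only [ContinuousMap.mul_apply, ContinuousMap.prod_apply, ContinuousMap.pow_apply, gen,
      ContinuousMap.coe_mk, l, Finsupp.sum, Finset.sum_mul, Real.exp_sum, RCLike.real_smul_eq_coe_mul]
    rw [mul_comm]
    congr 1
    push_cast
    refine Finset.prod_congr rfl fun i _ => ?_
    rw [mul_assoc, Real.exp_nat_mul]
    push_cast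
    rfl

/-- `PS([0,1])` is strongly algebrable (with continuum many free generators), over `ℝ` and over `ℂ`. -/
theorem result (𝕜 : Type) [RCLike 𝕜] :
    ∃ S : Set C(Set.Icc (0 : ℝ) 1, 𝕜), S.Infinite ∧ Cardinal.mk S = Cardinal.continuum ∧
      (∀ P : MvPolynomial S 𝕜, P ≠ 0 → MvPolynomial.constantCoeff P = 0 →
        MvPolynomial.aeval (fun s : S => (s : C(Set.Icc (0 : ℝ) 1, 𝕜))) P ≠ 0) ∧
      ∀ g ∈ NonUnitalAlgebra.adjoin 𝕜 S, g ≠ 0 → IsPS g := by
  classical
  let B := Module.Basis.ofVectorSpace ℚ ℝ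
  have hB := B.linearIndependent
  have hinj : Function.Injective fun i => gen 𝕜 (B i) := by
    intro i j h
    by_contra hij
    have h1 := ps_ne_zero (poly_ps B hB (MvPolynomial.X i - MvPolynomial.X j : MvPolynomial _ 𝕜)
      (sub_ne_zero.mpr fun e => hij (MvPolynomial.X_injective e)) (by simp))
    apply h1
    simp only [map_sub, MvPolynomial.aeval_X]
    exact sub_eq_zero.mpr h
  have hcard : Cardinal.mk (Set.range fun i => gen 𝕜 (B i)) = Cardinal.continuum := by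
    rw [Cardinal.mk_range_eq _ hinj, B.mk_eq_rank'', Real.rank_rat_real]
  let e := Equiv.ofInjective _ hinj
  have key : ∀ P : MvPolynomial (Set.range fun i => gen 𝕜 (B i)) 𝕜, P ≠ 0 →
      MvPolynomial.constantCoeff P = 0 →
      IsPS (MvPolynomial.aeval (fun s : Set.range fun i => gen 𝕜 (B i) =>
        (s : C(Set.Icc (0 : ℝ) 1, 𝕜))) P) := by
    intro P hP h0
    have := poly_ps (fun s => B (e.symm s)) (hB.comp _ e.symm.injective) P hP h0
    have e2 : (fun s : Set.range fun i => gen 𝕜 (B i) => gen 𝕜 (B (e.symm s))) =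
        fun s : Set.range fun i => gen 𝕜 (B i) => (s : C(Set.Icc (0 : ℝ) 1, 𝕜)) := by
      funext s
      exact Equiv.apply_ofInjective_symm hinj s
    rwa [e2] at this
  refine ⟨Set.range fun i => gen 𝕜 (B i), ?_, hcard, fun P hP h0 => ps_ne_zero (key P hP h0), ?_⟩
  · rw [← Set.infinite_coe_iff, Cardinal.infinite_iff, hcard]
    exact Cardinal.aleph0_le_continuum
  · intro g hg hg0
    obtain ⟨P, h0, rfl⟩ : ∃ P : MvPolynomial (Set.range fun i => gen 𝕜 (B i)) 𝕜,
        MvPolynomial.constantCoeff P = 0 ∧ g = MvPolynomial.aeval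
          (fun s : Set.range fun i => gen 𝕜 (B i) => (s : C(Set.Icc (0 : ℝ) 1, 𝕜))) P := by
      clear hg0
      induction hg using NonUnitalAlgebra.adjoin_induction with
      | mem x hx => exact ⟨MvPolynomial.X ⟨x, hx⟩, by simp, by simp⟩
      | add x y _ _ hx hy =>
        obtain ⟨P, h1, rfl⟩ := hx
        obtain ⟨Q, h2, rfl⟩ := hy
        exact ⟨P + Q, by simp [h1, h2], by simp⟩
      | zero => exact ⟨0, by simp, by simp⟩
      | mul x y _ _ hx hy =>
        obtain ⟨P, h1, rfl⟩ := hx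
        obtain ⟨Q, h2, rfl⟩ := hy
        exact ⟨P * Q, by simp [h1], by simp⟩
      | smul r x _ hx =>
        obtain ⟨P, h1, rfl⟩ := hx
        exact ⟨r • P, by simp [h1], by simp⟩
    refine key P (fun h => hg0 ?_) h0
    rw [h, map_zero]

end Pool.Agent.Results.MP_30394b_an.StrongAlg
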